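import Pool.Agent.Lib_helper65.QIown.Lang
import Pool.Agent.Lib_helper65.QIown.Metric
import Pool.Agent.Lib_helper57.QI.Main

/-!
# The class of automatic groups is not closed under quasi-isometry
-/

set_option autoImplicit false

namespace Pool.Agent.Results.MP_20ff22_al.QuasiIsometryAutomatic

open H65.QIO

/-- There is a finitely generated group `H` and a map from the automatic group `F₂ × ℤ²` to `H` which is a
quasi-isometry for all finite generating sets of the two groups, and `H` has no automatic structure over
any finite alphabet. -/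
theorem result :
    IsAutomatic (FreeGroup Bool × Multiplicative (ℤ × ℤ)) ∧
    ∃ (H : Type) (_ : Group H),
      (∃ B : Finset H, Subgroup.closure (B : Set H) = ⊤) ∧
      (∃ f : FreeGroup Bool × Multiplicative (ℤ × ℤ) → H,
        ∀ (A : Finset (FreeGroup Bool × Multiplicative (ℤ × ℤ))) (B : Finset H),
          Subgroup.closure (A : Set (FreeGroup Bool × Multiplicative (ℤ × ℤ))) = ⊤ →
          Subgroup.closure (B : Set H) = ⊤ → IsQuasiIsometry (A : Set _) (B : Set H) f) ∧
      ∀ (α : Type) [Finite α] (π : α → H) (L : Language α), ¬ IsAutomaticStructure π L := by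
  refine ⟨isAutomatic_of H57.QI.modA, H57.QI.LM, inferInstance, ?_, quasi H57.QI.isQI_LM, ?_⟩
  · obtain ⟨S, T, f, K, C, hS, hT, -⟩ := H57.QI.isQI_LM
    exact ⟨T, hT⟩
  · intro α _ π L h
    exact H57.QI.not_isAut_LM (isAut_of h)

end Pool.Agent.Results.MP_20ff22_al.QuasiIsometryAutomatic
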